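import Pool.Agent.H41.ET.Defs

set_option autoImplicit false

/-!
# Pairwise compatible Euler tours, E6: relabellings for which a large closed set avoids `G`
-/

namespace Pool.Agent.H105.ETB

open Pool.Agent.H41.ET

open scoped Nat

/-- a transversal of the pairs -/
lemma exists_trans {V : Type} [Fintype V] [DecidableEq V] {N : V → V} (hN : Inv0 N) :
    ∃ T : Finset V, ∀ x, x ∈ T ↔ N x ∉ T := by
  obtain ⟨e⟩ := Fintype.truncEquivFin V
  refine ⟨Finset.univ.filter (fun x => e x < e (N x)), fun x => ?_⟩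
  simp only [Finset.mem_filter, Finset.mem_univ, true_and, hN.1, not_lt]
  constructor
  · exact fun h => h.le
  · intro h
    exact lt_of_le_of_ne h fun h1 => hN.2 x (e.injective h1).symm

/-- closed sets have an even number of elements -/
lemma card_closed {V : Type} [Fintype V] [DecidableEq V] {N : V → V} (hN : Inv0 N) {T : Finset V}
    (hT : ∀ x, x ∈ T ↔ N x ∉ T) (A : Finset V) (hA : ∀ x ∈ A, N x ∈ A) :
    A.card = 2 * (A.filter (fun x => x ∈ T)).card := by
  have h1 := Finset.card_filter_add_card_filter_not (s := A) (fun x => x ∈ T)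
  have h2 : (A.filter (fun x => ¬ x ∈ T)).card = (A.filter (fun x => x ∈ T)).card := by
    refine Finset.card_nbij' N N ?_ ?_ ?_ ?_
    · intro x hx
      simp only [Finset.coe_filter, Set.mem_ofPred_eq] at hx ⊢
      refine ⟨hA x hx.1, ?_⟩
      by_contra h
      exact hx.2 ((hT x).2 h)
    · intro x hx
      simp only [Finset.coe_filter, Set.mem_ofPred_eq] at hx ⊢
      exact ⟨hA x hx.1, (hT x).1 hx.2⟩
    · intro x _
      exact hN.1 x
    · intro x _
      exact hN.1 x
  omega

/-- the closed sets in `U` with `2 b` elements -/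
noncomputable def cls {V : Type} [Fintype V] [DecidableEq V] (N : V → V) (U : Finset V) (b : ℕ) :
    Finset (Finset V) := by
  classical
  exact Finset.univ.filter (fun Z => (∀ x ∈ Z, N x ∈ Z) ∧ Z ⊆ U ∧ Z.card = 2 * b)

lemma mem_cls {V : Type} [Fintype V] [DecidableEq V] {N : V → V} {U : Finset V} {b : ℕ}
    {Z : Finset V} : Z ∈ cls N U b ↔ (∀ x ∈ Z, N x ∈ Z) ∧ Z ⊆ U ∧ Z.card = 2 * b := by
  unfold cls
  simp

lemma card_cls {V : Type} [Fintype V] [DecidableEq V] {N : V → V} (hN : Inv0 N) (U : Finset V)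
    (b n : ℕ) (hU : ∀ x ∈ U, N x ∈ U) (hn : U.card = 2 * n) : (cls N U b).card ≤ n.choose b := by
  obtain ⟨T, hT⟩ := exists_trans hN
  have h1 := card_closed hN hT U hU
  have h2 : (U.filter (fun x => x ∈ T)).card = n := by omega
  rw [← h2, ← Finset.card_powersetCard]
  refine Finset.card_le_card_of_injOn (fun Z => Z.filter (fun x => x ∈ T)) ?_ ?_
  · intro Z hZ
    obtain ⟨a1, a2, a3⟩ := mem_cls.1 hZ
    have a4 := card_closed hN hT Z a1
    have a5 : (Z.filter (fun x => x ∈ T)).card = b := by omega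
    exact Finset.mem_coe.2 (Finset.mem_powersetCard.2 ⟨Finset.filter_subset_filter _ a2, a5⟩)
  · intro Z hZ W hW hZW
    obtain ⟨a1, a2, a3⟩ := mem_cls.1 hZ
    obtain ⟨b1, b2, b3⟩ := mem_cls.1 hW
    simp only at hZW
    have key : ∀ Z W : Finset V, (∀ x ∈ Z, N x ∈ Z) → (∀ x ∈ W, N x ∈ W) →
        Z.filter (fun x => x ∈ T) = W.filter (fun x => x ∈ T) → Z ⊆ W := by
      intro Z W hZ hW h x hx
      by_cases hxT : x ∈ T
      · have h3 : x ∈ Z.filter (fun x => x ∈ T) := Finset.mem_filter.2 ⟨hx, hxT⟩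
        rw [h] at h3
        exact (Finset.mem_filter.1 h3).1
      · have hNT : N x ∈ T := by
          by_contra h4
          exact hxT ((hT x).2 h4)
        have h3 : N x ∈ Z.filter (fun x => x ∈ T) := Finset.mem_filter.2 ⟨hZ x hx, hNT⟩
        rw [h] at h3
        have h4 := hW _ (Finset.mem_filter.1 h3).1
        rwa [hN.1] at h4
    exact Finset.Subset.antisymm (key Z W a1 b1 hZW) (key W Z b1 a1 hZW.symm)

/-- permutations which map `B` onto `Z` -/
lemma card_perm {V : Type} [Fintype V] [DecidableEq V] (B Z : Finset V) :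
    (Finset.univ.filter (fun p : Equiv.Perm V => ∀ a, a ∈ B ↔ p a ∈ Z)).card ≤
      B.card ! * (Fintype.card V - B.card)! := by
  classical
  rw [← Fintype.card_subtype]
  obtain ⟨ph, hph⟩ : ∃ ph : {p : Equiv.Perm V // ∀ a, a ∈ B ↔ p a ∈ Z} →
      ({a // a ∈ B} ≃ {a // a ∈ Z}) × ({a // ¬ a ∈ B} ≃ {a // ¬ a ∈ Z}),
      ph = fun p => (p.1.subtypeEquiv p.2, p.1.subtypeEquiv fun a => not_congr (p.2 a)) := ⟨_, rfl⟩
  have hinj : Function.Injective ph := by
    intro p q hpq
    rw [hph] at hpq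
    simp only [Prod.mk.injEq] at hpq
    apply Subtype.ext
    ext x
    by_cases hx : x ∈ B
    · have h1 := congrArg (fun e => ((e ⟨x, hx⟩ : {a // a ∈ Z}) : V)) hpq.1
      simpa using h1
    · have h1 := congrArg (fun e => ((e ⟨x, hx⟩ : {a // ¬ a ∈ Z}) : V)) hpq.2
      simpa using h1
  refine (Fintype.card_le_of_injective ph hinj).trans ?_
  rw [Fintype.card_prod]
  refine Nat.mul_le_mul ?_ ?_
  · rcases isEmpty_or_nonempty ({a // a ∈ B} ≃ {a // a ∈ Z}) with h | ⟨⟨e⟩⟩
    · rw [Fintype.card_eq_zero]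
      exact Nat.zero_le _
    · rw [Fintype.card_equiv e, Fintype.card_coe]
  · rcases isEmpty_or_nonempty ({a // ¬ a ∈ B} ≃ {a // ¬ a ∈ Z}) with h | ⟨⟨e⟩⟩
    · rw [Fintype.card_eq_zero]
      exact Nat.zero_le _
    · rw [Fintype.card_equiv e, Fintype.card_subtype_compl, Fintype.card_coe]

lemma choose_step (n b m : ℕ) (hn : 1 ≤ n) (hm : 1 ≤ m) (h : n ≤ m * b) :
    (n - 1).choose b * m ≤ n.choose b * (m - 1) := by
  obtain ⟨k, rfl⟩ : ∃ k, n = k + 1 := ⟨n - 1, by omega⟩
  rw [Nat.add_sub_cancel]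
  obtain ⟨l, rfl⟩ : ∃ l, m = l + 1 := ⟨m - 1, by omega⟩
  rw [Nat.add_sub_cancel]
  rcases lt_or_ge (k + 1) b with hb | hb
  · rw [Nat.choose_eq_zero_of_lt (by omega : k < b)]
    simp
  have h1 : (k + 1) * k.choose b = (k + 1).choose b * (k + 1 - b) := by
    rcases Nat.lt_or_ge k b with hkb | hkb
    · rw [Nat.choose_eq_zero_of_lt hkb]
      have : k + 1 - b = 0 := by omega
      rw [this, mul_zero, mul_zero]
    · have a1 := Nat.choose_mul_factorial_mul_factorial hkb
      have a2 := Nat.choose_mul_factorial_mul_factorial hb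
      have a3 : (k + 1 - b)! = (k + 1 - b) * (k - b)! := by
        have : k + 1 - b = (k - b) + 1 := by omega
        rw [this, Nat.factorial_succ]
      have a4 : 0 < b ! * (k - b)! := Nat.mul_pos (Nat.factorial_pos _) (Nat.factorial_pos _)
      refine Nat.eq_of_mul_eq_mul_right a4 ?_
      calc (k + 1) * k.choose b * (b ! * (k - b)!) =
            (k + 1) * (k.choose b * b ! * (k - b)!) := by ring
        _ = (k + 1)! := by rw [a1, Nat.factorial_succ]
        _ = (k + 1).choose b * b ! * (k + 1 - b)! := a2.symm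
        _ = (k + 1).choose b * b ! * ((k + 1 - b) * (k - b)!) := by rw [a3]
        _ = _ := by ring
  refine Nat.le_of_mul_le_mul_left ?_ (Nat.succ_pos k)
  have h2 : (k + 1) * (k.choose b * (l + 1)) = (k + 1).choose b * ((k + 1 - b) * (l + 1)) := by
    rw [← mul_assoc, h1, mul_assoc]
  have h3 : (k + 1) * ((k + 1).choose b * l) = (k + 1).choose b * ((k + 1) * l) := by ring
  show (k + 1) * (k.choose b * (l + 1)) ≤ (k + 1) * ((k + 1).choose b * l)
  rw [h2, h3]
  refine Nat.mul_le_mul_left _ ?_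
  obtain ⟨c, hc⟩ : ∃ c, k + 1 = b + c := ⟨k + 1 - b, by omega⟩
  have h4 : k + 1 - b = c := by omega
  rw [h4, hc]
  rw [hc] at h
  nlinarith

lemma choose_pow (d b m g : ℕ) (hm : 1 ≤ m) (h : d ≤ m * b) (hg : g ≤ d) :
    (d - g).choose b * m ^ g ≤ d.choose b * (m - 1) ^ g := by
  induction g with
  | zero => simp
  | succ g ih =>
    have h1 := choose_step (d - g) b m (by omega) hm (by omega)
    have h2 : d - g - 1 = d - (g + 1) := by omega
    rw [h2] at h1
    calc (d - (g + 1)).choose b * m ^ (g + 1) = ((d - (g + 1)).choose b * m) * m ^ g := by ring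
      _ ≤ ((d - g).choose b * (m - 1)) * m ^ g := Nat.mul_le_mul_right _ h1
      _ = ((d - g).choose b * m ^ g) * (m - 1) := by ring
      _ ≤ (d.choose b * (m - 1) ^ g) * (m - 1) := Nat.mul_le_mul_right _ (ih (by omega))
      _ = _ := by ring

lemma choose_sq (d b : ℕ) (hb : b ≤ d) :
    d.choose b * d.choose b * ((2 * b)! * (2 * d - 2 * b)!) ≤ (2 * d)! := by
  have h1 : d.choose b * d.choose b ≤ (2 * d).choose (2 * b) := by
    have h2 := Nat.add_choose_eq d d (2 * b)
    rw [two_mul d, h2]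
    have h3 : (b, b) ∈ Finset.HasAntidiagonal.antidiagonal (2 * b) := by
      rw [Finset.HasAntidiagonal.mem_antidiagonal]
      omega
    exact Finset.single_le_sum (f := fun ij : ℕ × ℕ => d.choose ij.1 * d.choose ij.2)
      (fun i _ => Nat.zero_le _) h3
  calc d.choose b * d.choose b * ((2 * b)! * (2 * d - 2 * b)!) ≤
        (2 * d).choose (2 * b) * ((2 * b)! * (2 * d - 2 * b)!) := Nat.mul_le_mul_right _ h1
    _ = (2 * d)! := by
        rw [← mul_assoc]
        exact Nat.choose_mul_factorial_mul_factorial (by omega)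

/-- E6 -/
theorem cntB : S_CNTB := by
  classical
  intro d m V _ _ N O G hV hm hN hO hG
  obtain ⟨g, hg⟩ : ∃ g, g = G.card := ⟨_, rfl⟩
  rw [← hg]
  obtain ⟨U, hU⟩ : ∃ U : Finset V, U = Finset.univ \ (G ∪ G.image N) := ⟨_, rfl⟩
  have hNinj : Function.Injective N := by
    intro x y hxy
    have := congrArg N hxy
    rwa [hN.1, hN.1] at this
  have hGG : (G ∪ G.image N).card = 2 * g := by
    rw [Finset.card_union_of_disjoint, Finset.card_image_of_injective _ hNinj, hg]
    · ring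
    · rw [Finset.disjoint_left]
      intro x hx hx2
      obtain ⟨y, hy, rfl⟩ := Finset.mem_image.1 hx2
      exact hG y hy hx
  have hgd : g ≤ d := by
    have := Finset.card_le_univ (G ∪ G.image N)
    omega
  have hUc : U.card = 2 * (d - g) := by
    rw [hU, Finset.card_sdiff_of_subset (Finset.subset_univ _), Finset.card_univ, hV, hGG]
    omega
  have hUcl : ∀ x ∈ U, N x ∈ U := by
    intro x hx
    rw [hU, Finset.mem_sdiff, Finset.mem_union, not_or] at hx ⊢
    refine ⟨Finset.mem_univ _, fun h => hx.2.2 ?_, fun h => hx.2.1 ?_⟩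
    · exact Finset.mem_image.2 ⟨N x, h, hN.1 x⟩
    · obtain ⟨y, hy, hyx⟩ := Finset.mem_image.1 h
      rwa [← hNinj hyx]
  -- the union bound
  obtain ⟨I, hI⟩ : ∃ I : Finset ℕ, I = (Finset.range (d + 1)).filter (fun b => d ≤ m * b) :=
    ⟨_, rfl⟩
  obtain ⟨F, hF⟩ : ∃ F : Finset (Equiv.Perm V), F = I.biUnion (fun b =>
    (cls N U b).biUnion (fun Z => (cls O Finset.univ b).biUnion (fun B =>
      Finset.univ.filter (fun p : Equiv.Perm V => ∀ a, a ∈ B ↔ p a ∈ Z)))) := ⟨_, rfl⟩
  have hsub : {p : Equiv.Perm V | ∃ Z : Set V, Cl N (cj p O) Z ∧ 2 * d ≤ m * Z.ncard ∧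
      ∀ x ∈ G, x ∉ Z} ⊆ (F : Set (Equiv.Perm V)) := by
    rintro p ⟨Z, ⟨hZ1, hZ2⟩, hZ3, hZ4⟩
    obtain ⟨Zf, hZf⟩ : ∃ Zf : Finset V, Zf = Z.toFinset := ⟨_, rfl⟩
    have hZm : ∀ x, x ∈ Zf ↔ x ∈ Z := fun x => by rw [hZf, Set.mem_toFinset]
    obtain ⟨B, hB⟩ : ∃ B : Finset V, B = Finset.univ.filter (fun a => p a ∈ Z) := ⟨_, rfl⟩
    have hBm : ∀ x, x ∈ B ↔ p x ∈ Z := fun x => by rw [hB]; simp
    have hcl : ∀ x ∈ Zf, N x ∈ Zf := fun x hx => (hZm _).2 (hZ1 x ((hZm x).1 hx))
    obtain ⟨T, hT⟩ := exists_trans hN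
    have hc := card_closed hN hT Zf hcl
    obtain ⟨b, hb⟩ : ∃ b, b = (Zf.filter (fun x => x ∈ T)).card := ⟨_, rfl⟩
    rw [← hb] at hc
    have hZn : Z.ncard = 2 * b := by
      rw [Set.ncard_eq_toFinset_card', ← hc, hZf]
    have hbd : b ≤ d := by
      have := Finset.card_le_univ Zf
      omega
    have hBc : B.card = 2 * b := by
      rw [← hc]
      refine Finset.card_nbij' p p.symm ?_ ?_ ?_ ?_
      · intro x hx
        exact (hZm _).2 ((hBm x).1 hx)
      · intro x hx
        refine (hBm _).2 ?_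
        rw [Equiv.apply_symm_apply]
        exact (hZm x).1 hx
      · intro x _
        exact Equiv.symm_apply_apply p x
      · intro x _
        exact Equiv.apply_symm_apply p x
    rw [hF]
    simp only [Finset.mem_coe, Finset.mem_biUnion]
    refine ⟨b, ?_, Zf, mem_cls.2 ⟨hcl, ?_, hc⟩, B, mem_cls.2 ⟨?_, Finset.subset_univ _, hBc⟩, ?_⟩
    · rw [hI, Finset.mem_filter, Finset.mem_range]
      refine ⟨by omega, ?_⟩
      rw [hZn] at hZ3
      nlinarith
    · intro x hx
      rw [hU, Finset.mem_sdiff, Finset.mem_union, not_or]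
      have hxZ := (hZm x).1 hx
      refine ⟨Finset.mem_univ _, fun h => hZ4 x h hxZ, fun h => ?_⟩
      obtain ⟨y, hy, rfl⟩ := Finset.mem_image.1 h
      have := hZ1 _ hxZ
      rw [hN.1] at this
      exact hZ4 y hy this
    · intro x hx
      have h1 := hZ2 _ ((hBm x).1 hx)
      unfold cj at h1
      rw [Equiv.symm_apply_apply] at h1
      exact (hBm _).2 h1
    · rw [Finset.mem_filter]
      exact ⟨Finset.mem_univ _, fun a => by rw [hBm, hZm]⟩
  have hle : {p : Equiv.Perm V | ∃ Z : Set V, Cl N (cj p O) Z ∧ 2 * d ≤ m * Z.ncard ∧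
      ∀ x ∈ G, x ∉ Z}.ncard ≤ F.card := by
    have h := Set.ncard_le_ncard hsub (Finset.finite_toSet F)
    rwa [Set.ncard_coe_finset] at h
  have hFc : F.card ≤ ∑ b ∈ I, (d - g).choose b * (d.choose b * ((2 * b)! * (2 * d - 2 * b)!)) := by
    rw [hF]
    refine Finset.card_biUnion_le.trans (Finset.sum_le_sum fun b _ => ?_)
    refine Finset.card_biUnion_le.trans ?_
    have h1 : ∀ Z ∈ cls N U b, ((cls O Finset.univ b).biUnion (fun B =>
        Finset.univ.filter (fun p : Equiv.Perm V => ∀ a, a ∈ B ↔ p a ∈ Z))).card ≤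
        d.choose b * ((2 * b)! * (2 * d - 2 * b)!) := by
      intro Z _
      refine Finset.card_biUnion_le.trans ?_
      have h2 : ∀ B ∈ cls O Finset.univ b,
          (Finset.univ.filter (fun p : Equiv.Perm V => ∀ a, a ∈ B ↔ p a ∈ Z)).card ≤
          (2 * b)! * (2 * d - 2 * b)! := by
        intro B hB
        have h3 := card_perm B Z
        rwa [(mem_cls.1 hB).2.2, hV] at h3
      refine (Finset.sum_le_card_nsmul _ _ _ h2).trans ?_
      rw [smul_eq_mul]
      refine Nat.mul_le_mul_right _ ?_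
      refine card_cls hO _ b d (fun x _ => Finset.mem_univ _) ?_
      rw [Finset.card_univ, hV]
    refine (Finset.sum_le_card_nsmul _ _ _ h1).trans ?_
    rw [smul_eq_mul]
    exact Nat.mul_le_mul_right _ (card_cls hN U b (d - g) hUcl hUc)
  calc _ ≤ F.card * m ^ g := Nat.mul_le_mul_right _ hle
    _ ≤ (∑ b ∈ I, (d - g).choose b * (d.choose b * ((2 * b)! * (2 * d - 2 * b)!))) * m ^ g :=
        Nat.mul_le_mul_right _ hFc
    _ = ∑ b ∈ I, ((d - g).choose b * m ^ g) * (d.choose b * ((2 * b)! * (2 * d - 2 * b)!)) := by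
        rw [Finset.sum_mul]
        exact Finset.sum_congr rfl fun b _ => by ring
    _ ≤ ∑ b ∈ I, (m - 1) ^ g * (2 * d)! := by
        refine Finset.sum_le_sum fun b hb => ?_
        rw [hI, Finset.mem_filter, Finset.mem_range] at hb
        calc ((d - g).choose b * m ^ g) * (d.choose b * ((2 * b)! * (2 * d - 2 * b)!)) ≤
            (d.choose b * (m - 1) ^ g) * (d.choose b * ((2 * b)! * (2 * d - 2 * b)!)) :=
              Nat.mul_le_mul_right _ (choose_pow d b m g hm hb.2 hgd)
          _ = (m - 1) ^ g * (d.choose b * d.choose b * ((2 * b)! * (2 * d - 2 * b)!)) := by ring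
          _ ≤ (m - 1) ^ g * (2 * d)! :=
              Nat.mul_le_mul_left _ (choose_sq d b (by omega))
    _ ≤ (d + 1) * (m - 1) ^ g * (2 * d)! := by
        rw [Finset.sum_const, smul_eq_mul, mul_assoc]
        refine Nat.mul_le_mul_right _ ?_
        rw [hI]
        refine (Finset.card_filter_le _ _).trans ?_
        rw [Finset.card_range]

end Pool.Agent.H105.ETB
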